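import Pool.Agent.W120.WM.Defs2
import Pool.Agent.Helper76.HPlanch

set_option autoImplicit false

open MeasureTheory Filter Topology Set FourierTransform
open Pool.Agent.W120.WM

namespace Pool.Agent.W501.WM

theorem gg_v (h v : ℝ) (s : ℂ) : GG h v s = GG h 0 s * Complex.exp (v * s) := by
  unfold GG EE
  have : Complex.exp ((h : ℂ) ^ 2 / 2 * s ^ 2 + v * s)
      = Complex.exp ((h : ℂ) ^ 2 / 2 * s ^ 2 + (0:ℝ) * s) * Complex.exp (v * s) := by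
    rw [← Complex.exp_add]; simp
  rw [this]; ring

theorem pl : U_PL := by
  intro δ h hδ hh H H2
  set g : ℝ → ℂ := fun t => GG h 0 (⟨1 / 2 + δ, t⟩ : ℂ) with hg
  have hint : Integrable g := (H 0).1
  have hmem : MemLp g 2 := by
    refine ⟨hint.aestronglyMeasurable, ?_⟩
    rw [eLpNorm_lt_top_iff_lintegral_rpow_enorm_lt_top (by norm_num) (by norm_num)]
    have : ∫⁻ t : ℝ, ‖g t‖ₑ ^ (2 : ENNReal).toReal = ∫⁻ t : ℝ, ‖g t‖ₑ ^ 2 := by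
      apply lintegral_congr
      intro t
      norm_num
    rw [this]
    exact lt_top_iff_ne_top.mpr H2
  have hpl := Pool.Agent.Helper76.NormalHP.plancherel_lintegral g hint hmem
  have h2pi : (0:ℝ) < 2 * Real.pi := by positivity
  have key : ∀ v : ℝ, ((Sm h v : ℝ) : ℂ) = ((2 * Real.pi : ℝ) : ℂ)⁻¹ *
      (Complex.exp (((1 / 2 + δ) * v : ℝ) : ℂ) * 𝓕 g ((-(2 * Real.pi)⁻¹) * v)) := by
    intro v
    rw [(H v).2, Real.fourier_real_eq_integral_exp_smul]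
    congr 1
    rw [← integral_const_mul]
    apply integral_congr_ae
    filter_upwards with t
    rw [gg_v, smul_eq_mul, ← mul_assoc, ← Complex.exp_add, hg, mul_comm]
    congr 2
    have e : (⟨1 / 2 + δ, t⟩ : ℂ) = ((1 / 2 + δ : ℝ) : ℂ) + t * Complex.I := by
      apply Complex.ext <;> simp
    rw [e]
    have e2 : -2 * Real.pi * t * (-(2 * Real.pi)⁻¹ * v) = t * v := by
      field_simp
    rw [e2]
    push_cast
    ring
  have hpt : ∀ v : ℝ, ENNReal.ofReal (Sm h v ^ 2 * Real.exp (-((1 + 2 * δ) * v)))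
      = ENNReal.ofReal ((2 * Real.pi)⁻¹ ^ 2) * ‖𝓕 g ((-(2 * Real.pi)⁻¹) * v)‖ₑ ^ 2 := by
    intro v
    have h1 : Sm h v ^ 2 = ‖((Sm h v : ℝ) : ℂ)‖ ^ 2 := by
      rw [Complex.norm_real, Real.norm_eq_abs, sq_abs]
    have h2 : Sm h v ^ 2 * Real.exp (-((1 + 2 * δ) * v))
        = (2 * Real.pi)⁻¹ ^ 2 * ‖𝓕 g ((-(2 * Real.pi)⁻¹) * v)‖ ^ 2 := by
      rw [h1, key v, norm_mul, norm_mul, norm_inv, Complex.norm_real, Complex.norm_exp_ofReal,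
        Real.norm_eq_abs, abs_of_pos h2pi, mul_pow, mul_pow, ← Real.exp_nat_mul]
      have h3 : Real.exp (-((1 + 2 * δ) * v)) = (Real.exp ((2:ℕ) * ((1 / 2 + δ) * v)))⁻¹ := by
        rw [← Real.exp_neg]
        congr 1
        push_cast
        ring
      rw [h3]
      have h4 := (Real.exp_pos ((2:ℕ) * ((1 / 2 + δ) * v))).ne'
      field_simp
    rw [h2, ENNReal.ofReal_mul (by positivity), ENNReal.ofReal_pow (norm_nonneg _), ofReal_norm]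
  have ha : (-(2 * Real.pi)⁻¹ : ℝ) ≠ 0 := neg_ne_zero.mpr (inv_ne_zero h2pi.ne')
  have hcv : ∫⁻ v : ℝ, ‖𝓕 g ((-(2 * Real.pi)⁻¹) * v)‖ₑ ^ 2
      = ENNReal.ofReal (2 * Real.pi) * ∫⁻ ξ, ‖𝓕 g ξ‖ₑ ^ 2 := by
    have e := (Homeomorph.mulLeft₀ (-(2 * Real.pi)⁻¹ : ℝ) ha).measurableEmbedding.lintegral_map
      (μ := volume) (fun ξ => ‖𝓕 g ξ‖ₑ ^ 2)
    have e1 : Measure.map (Homeomorph.mulLeft₀ (-(2 * Real.pi)⁻¹ : ℝ) ha) volume
        = ENNReal.ofReal |(-(2 * Real.pi)⁻¹ : ℝ)⁻¹| • (volume : Measure ℝ) :=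
      Real.map_volume_mul_left ha
    rw [e1, lintegral_smul_measure] at e
    have e2 : |(-(2 * Real.pi)⁻¹ : ℝ)⁻¹| = 2 * Real.pi := by
      rw [inv_neg, inv_inv, abs_neg, abs_of_pos h2pi]
    rw [e2] at e
    rw [smul_eq_mul] at e
    exact e.symm
  calc ∫⁻ v : ℝ, ENNReal.ofReal (Sm h v ^ 2 * Real.exp (-((1 + 2 * δ) * v)))
      = ∫⁻ v : ℝ, ENNReal.ofReal ((2 * Real.pi)⁻¹ ^ 2) * ‖𝓕 g ((-(2 * Real.pi)⁻¹) * v)‖ₑ ^ 2 :=
        lintegral_congr hpt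
    _ = ENNReal.ofReal ((2 * Real.pi)⁻¹ ^ 2) * ∫⁻ v : ℝ, ‖𝓕 g ((-(2 * Real.pi)⁻¹) * v)‖ₑ ^ 2 :=
        lintegral_const_mul' _ _ ENNReal.ofReal_ne_top
    _ = ENNReal.ofReal ((2 * Real.pi)⁻¹ ^ 2 * (2 * Real.pi)) * ∫⁻ t, ‖g t‖ₑ ^ 2 := by
        rw [hcv, hpl, ← mul_assoc, ← ENNReal.ofReal_mul (by positivity)]
    _ ≤ 1 * ∫⁻ t, ‖g t‖ₑ ^ 2 := by
        gcongr
        rw [← ENNReal.ofReal_one]
        apply ENNReal.ofReal_le_ofReal
        have h5 : (2 * Real.pi)⁻¹ ^ 2 * (2 * Real.pi) = (2 * Real.pi)⁻¹ := by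
          field_simp
        rw [h5]
        apply inv_le_one_of_one_le₀
        have := Real.pi_gt_three
        linarith
    _ = ∫⁻ t, ‖g t‖ₑ ^ 2 := one_mul _

end Pool.Agent.W501.WM
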